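import Pool.Agent.Helper914_Men.Main

/-!
`𝔯 < 𝔡 ≤ add(Menger)` holds if and only if the product of a Menger set of reals and a
`𝔡`-concentrated set of reals is always Menger.
-/

namespace Pool.Agent.Results.MP_f3af1a_lc.ConcentratedProducts

open Pool.Agent.Helper914M

theorem result : List.TFAE [rN < dN ∧ dN ≤ addM,
    ∀ X Y : Set ℝ, MengerSp X → SDConc Y → MengerSp (X × Y),
    ∀ X Y : Set ℝ, MengerSp X → DConc Y → MengerSp (X × Y)] :=
  main1

end Pool.Agent.Results.MP_f3af1a_lc.ConcentratedProducts
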