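import Pool.Agent.Helper914_Men.Structure

/-!
A characterization, in ZFC, of the failure of the productivity of the Menger property.
-/

namespace Pool.Agent.Results.MP_f3af1a_lc.Configuration

open Pool.Agent.Helper914M Cardinal

/-- There are a `σ`-compact set of reals `P`, disjoint Menger sets `A, B ⊆ P` and a set of reals
`C` of size `𝔡`, disjoint from `P`, such that every open set which contains `A` or contains `B`
contains all but fewer than `𝔡` elements of `C`. -/
def TwoSided : Prop :=
  ∃ P A B C : Set ℝ, IsSigmaCompact P ∧ A ⊆ P ∧ B ⊆ P ∧ Disjoint A B ∧ MengerSp A ∧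
    MengerSp B ∧ Disjoint C P ∧ #C = dN ∧
    (∀ V : Set ℝ, IsOpen V → A ⊆ V → #(C \ V : Set ℝ) < dN) ∧
    (∀ V : Set ℝ, IsOpen V → B ⊆ V → #(C \ V : Set ℝ) < dN)

theorem result : (∃ X Y : Set ℝ, MengerSp X ∧ MengerSp Y ∧ ¬ MengerSp (X × Y)) ↔
    dN ≤ rN ∨ addM < dN ∨ TwoSided := by
  constructor
  · intro h
    by_cases hr : dN ≤ rN
    · exact Or.inl hr
    · by_cases ha : addM < dN
      · exact Or.inr (Or.inl ha)
      · exact Or.inr (Or.inr ((main3 (not_le.1 hr) (not_lt.1 ha)).1 h))
  · intro h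
    by_contra hcon
    have h1 : ∀ X Y : Set ℝ, MengerSp X → DConc Y → MengerSp (X × Y) := by
      intro X Y hX hY
      by_contra hXY
      exact hcon ⟨X, Y, hX, (mengerSp_iff Y).2 (mg_of_DConc hY), hXY⟩
    obtain ⟨hr, ha⟩ := (main1.out 0 2).2 h1
    rcases h with h | h | h
    · exact absurd hr (not_lt.2 h)
    · exact absurd ha (not_le.2 h)
    · exact hcon ((main3 hr ha).2 h)

end Pool.Agent.Results.MP_f3af1a_lc.Configuration
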