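import Pool.Agent.Helper914_Men.Main

/-!
If some Menger set of reals is not a Scheepers set, then `𝔡 ≤ 𝔯` or `add(Menger) < 𝔡`.
-/

namespace Pool.Agent.Results.MP_f3af1a_lc.MengerScheepers

open Pool.Agent.Helper914M

/-- The Scheepers property: for every sequence of open covers there are finite subfamilies of its
members such that every finite set of points is contained in the union of one of them. -/
def ScheepersSp (Z : Type) [TopologicalSpace Z] : Prop :=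
  ∀ U : ℕ → Set (Set Z), (∀ n, (∀ u ∈ U n, IsOpen u) ∧ ⋃₀ U n = Set.univ) →
    ∃ F : ℕ → Set (Set Z), (∀ n, F n ⊆ U n ∧ (F n).Finite) ∧
      ∀ S : Set Z, S.Finite → ∃ n, S ⊆ ⋃₀ F n

theorem result (h : ∃ X : Set ℝ, MengerSp X ∧ ¬ ScheepersSp X) : dN ≤ rN ∨ addM < dN := by
  by_contra hcon
  rw [not_or, not_le, not_lt] at hcon
  obtain ⟨𝒱, h𝒱⟩ := main2.1 hcon
  obtain ⟨X, hX, hXS⟩ := h
  apply hXS
  intro U hU
  obtain ⟨F, hF, hF2⟩ := h𝒱 X hX U hU
  refine ⟨F, hF, fun S hS => ?_⟩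
  have h1 : (⋂ z ∈ S, {n | z ∈ ⋃₀ F n}) ∈ 𝒱 := (Filter.biInter_mem hS).2 fun z _ => hF2 z
  obtain ⟨n, hn⟩ := Ultrafilter.nonempty_of_mem h1
  exact ⟨n, fun z hz => Set.mem_iInter₂.1 hn z hz⟩

end Pool.Agent.Results.MP_f3af1a_lc.MengerScheepers
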