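import Pool.Agent.H554.Addm
import Pool.Agent.H554.Final

/-!
# Non-productivity of the Menger property with `𝔯 < 𝔡 ≤ add(Menger)`

Part 1 (in ZFC): the combinatorial statement `Phi R J par B` implies `𝔯 < 𝔡`,
`𝔡 ≤ add(Menger)`, and gives two Menger sets of reals whose product is not Menger.
Part 2: for suitable ground model objects `R`, `J`, `par`, `B` the statement `Phi R J par B` holds
in the extension by some forcing notion.
-/

namespace Pool.Agent.Results.MP_f3af1a_lc.Negative

open Pool.Agent.H554 Pool.Agent.Helper669.Forcing Pool.Agent.Helper914M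

/-- It is consistent that `𝔯 < 𝔡`, `𝔡 ≤ add(Menger)` and the Menger property is not
productive: a hypothesis implying this (first part) is forced (second part). -/
theorem result :
    (∀ (R J : Type) (_ : LinearOrder J) (par : J → Bool) (B : R → Set ℕ), Phi R J par B →
      rN < dN ∧ dN ≤ addM ∧
        ∃ X Y : Set ℝ, MengerSp X ∧ MengerSp Y ∧ ¬ MengerSp (X × Y)) ∧
    ∃ (R J : Type) (_ : LinearOrder J) (par : J → Bool) (B : R → Set ℕ) (P : Type)
      (_ : Preorder P), Nonempty P ∧ ∀ p : P, p ∈ ForcedPhi P R J par B :=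
  ⟨fun _ _ _ _ _ h => ⟨(Am.cardinals h).1, (Am.cardinals h).2,
    Am.transfer (main_zfc _ _ _ _ _ h).2⟩, main_forced⟩

end Pool.Agent.Results.MP_f3af1a_lc.Negative
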